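import Pool.Agent.Helper2_Pack.StmtsA

/-!
# L7: the numbers of the gates and of the variables
-/

namespace Pool.Agent.Helper92_Pack

open Pool.Agent.Helper2_Pack
open Pool.Agent.Helper53_Closed (Sym)

/-! ### The numbers of the gates -/

theorem extra_len (L p : ℕ) (a : Sym) : (extra L p a).length ≤ 9 := by
  cases a <;> simp [extra]

theorem map_range_add (s n : ℕ) : (List.range n).map (fun d => s + d) = List.range' s n := by
  rw [List.range'_eq_map_range]

theorem ids_pos (L p : ℕ) (a : Sym) : (posGates L p a).map Prod.fst =
    List.range' (gid L p) (2 * (L + 1) + (extra L p a).length) := by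
  unfold posGates
  rw [List.map_append, List.map_append, List.map_map, List.map_map, List.map_map]
  have e1 : (Prod.fst ∘ fun d : ℕ => (gid L p + d, stackGate L p a d)) = fun d => gid L p + d := rfl
  have e2 : (Prod.fst ∘ fun k : ℕ => (gid L p + (L + 1) + k, regGate L p a k)) =
      fun k => gid L p + (L + 1) + k := rfl
  have e3 : (Prod.fst ∘ fun x : Gate × ℕ => (gid L p + 2 * (L + 1) + x.2, x.1)) =
      (fun k => gid L p + 2 * (L + 1) + k) ∘ Prod.snd := rfl
  rw [e1, e2, e3, ← List.map_map, List.zipIdx_map_snd, ← List.range_eq_range', map_range_add,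
    map_range_add, map_range_add]
  have e4 : gid L p + 2 * (L + 1) = gid L p + ((L + 1) + (L + 1)) := by ring
  rw [List.range'_append_1, e4, two_mul, List.range'_append_1]

theorem gid_succ (L p : ℕ) : gid L (p + 1) = gid L p + (2 * L + 11) := by
  unfold gid
  ring

theorem ids_flat (L : ℕ) (w : List Sym) : ∀ k : ℕ,
    (((w.zipIdx k).flatMap (fun x : Sym × ℕ => posGates L x.2 x.1)).map Prod.fst).Pairwise
      (· < ·) ∧
    ∀ i ∈ ((w.zipIdx k).flatMap (fun x : Sym × ℕ => posGates L x.2 x.1)).map Prod.fst,
      gid L k ≤ i ∧ i < gid L (k + w.length) := by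
  induction w with
  | nil =>
    intro k
    simp
  | cons a w ih =>
    intro k
    obtain ⟨h1, h2⟩ := ih (k + 1)
    have hl := extra_len L k a
    have hg := gid_succ L k
    rw [List.zipIdx_cons, List.flatMap_cons, List.map_append, ids_pos]
    have hm : ∀ i ∈ List.range' (gid L k) (2 * (L + 1) + (extra L k a).length),
        gid L k ≤ i ∧ i < gid L (k + 1) := by
      intro i hi
      rw [List.mem_range'_1] at hi
      omega
    have hmono : gid L (k + 1) ≤ gid L (k + (a :: w).length) := by
      unfold gid
      have : k + 1 ≤ k + (a :: w).length := by simp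
      have := Nat.mul_le_mul_right (2 * L + 11) this
      omega
    have he : k + 1 + w.length = k + (a :: w).length := by
      rw [List.length_cons]
      ring
    rw [he] at h2
    constructor
    · rw [List.pairwise_append]
      refine ⟨List.pairwise_lt_range', h1, ?_⟩
      intro i hi j hj
      exact (hm i hi).2.trans_le (h2 j hj).1
    · intro i hi
      rcases List.mem_append.1 hi with hi | hi
      · obtain ⟨a1, a2⟩ := hm i hi
        exact ⟨a1, a2.trans_le hmono⟩
      · obtain ⟨a1, a2⟩ := h2 i hi
        exact ⟨by omega, a2⟩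

theorem tagged_sorted (w : List Sym) : ((tagged w).map Prod.fst).Pairwise (· < ·) ∧
    ∀ t ∈ tagged w, t.1 < nG w.length := by
  obtain ⟨h1, h2⟩ := ids_flat w.length w 0
  have hg : gid w.length 0 = 3 := by simp [gid]
  have hG : gid w.length (0 + w.length) = nG w.length := by simp [gid, nG]
  rw [hg, hG] at h2
  have h3 : 3 ≤ nG w.length := by unfold nG; omega
  constructor
  · unfold tagged
    rw [List.map_append, List.pairwise_append]
    refine ⟨?_, h1, ?_⟩
    · simp
    · intro i hi j hj
      have := (h2 j hj).1
      simp only [List.map_cons, List.map_nil, List.mem_cons, List.not_mem_nil, or_false] at hi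
      omega
  · intro t ht
    unfold tagged at ht
    rcases List.mem_append.1 ht with ht | ht
    · simp only [List.mem_cons, List.not_mem_nil, or_false] at ht
      rcases ht with rfl | rfl | rfl <;> simp <;> omega
    · exact (h2 t.1 (List.mem_map_of_mem ht)).2

/-! ### The numbers of the variables -/

section Vars

variable {L p : ℕ}

theorem nS_lt {d : ℕ} (hp : p ≤ L) (hd : d ≤ L) : nS L p d < nV L := by
  unfold nS nV
  have h1 := Nat.mul_le_mul_right (L + 1) hp
  have h2 : (L + 1) ^ 2 = L * (L + 1) + (L + 1) := by ring
  omega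

theorem nT_lt {k : ℕ} (hp : p ≤ L) (hk : k ≤ L) : nT L p k < nV L := by
  unfold nT nV
  have h1 := Nat.mul_le_mul_right (L + 1) hp
  have h2 : (L + 1) ^ 2 = L * (L + 1) + (L + 1) := by ring
  omega

theorem nX_lt {k : ℕ} (hk : k ≤ L) : nX L k < nV L := by
  unfold nX nV
  omega

theorem nB_lt (hp : p ≤ L) : nB L p < nV L := by
  unfold nB nV
  omega

theorem nA_lt {j : ℕ} (hp : p ≤ L) (hj : j < 8) : nA L p j < nV L := by
  unfold nA nV
  omega

theorem nO_lt (L : ℕ) : nO L < nV L := by
  unfold nO nV
  omega

theorem nE_lt (L : ℕ) : nE L < nV L := by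
  unfold nE nV
  omega

theorem cp_vars {i j : ℕ} (hi : i < nV L) (hj : j < nV L) : ∀ x ∈ (cp L i j).vars, x < nV L := by
  intro x hx
  simp only [cp, Gate.vars, List.mem_cons, List.not_mem_nil, or_false] at hx
  rcases hx with rfl | rfl | rfl
  · exact hi
  · exact hj
  · exact nO_lt L

theorem triv_vars : ∀ x ∈ (triv L).vars, x < nV L := by
  intro x hx
  simp only [triv, Gate.vars, List.mem_cons, List.not_mem_nil, or_false] at hx
  have := nO_lt L
  rcases hx with rfl | rfl | rfl <;> exact this

theorem stack_vars {d : ℕ} (a : Sym) (hp : p < L) (hd : d ≤ L) :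
    ∀ x ∈ (stackGate L p a d).vars, x < nV L := by
  cases a <;> simp only [stackGate]
  all_goals try split_ifs
  all_goals first
    | exact triv_vars
    | exact cp_vars (nS_lt (by omega) (by omega)) (nS_lt (by omega) (by omega))

theorem reg_vars {k : ℕ} (a : Sym) (hp : p < L) (hk : k ≤ L) :
    ∀ x ∈ (regGate L p a k).vars, x < nV L := by
  cases a <;> simp only [regGate]
  all_goals try split_ifs
  all_goals first
    | exact triv_vars
    | exact cp_vars (nT_lt (by omega) (by omega)) (nT_lt (by omega) (by omega))
    | exact cp_vars (nT_lt (by omega) (by omega)) (nX_lt (by omega))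

theorem extra_vars (a : Sym) (hp : p < L) :
    ∀ g ∈ extra L p a, ∀ x ∈ g.vars, x < nV L := by
  have hO := nO_lt L
  have hE := nE_lt L
  have hB := nB_lt (L := L) (p := p) hp.le
  have hB' := nB_lt (L := L) (p := p + 1) hp
  have hS := nS_lt (L := L) (p := p) (d := 0) hp.le (by omega)
  have hS0 := nS_lt (L := L) (p := p + 1) (d := 0) hp (by omega)
  have hS1 := nS_lt (L := L) (p := p + 1) (d := 1) hp (by omega)
  have hT := nT_lt (L := L) (p := p + 1) (k := 0) hp (by omega)
  have hA : ∀ j < 8, nA L p j < nV L := fun j hj => nA_lt hp.le hj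
  have hA0 := hA 0 (by norm_num)
  have hA1 := hA 1 (by norm_num)
  have hA2 := hA 2 (by norm_num)
  have hA3 := hA 3 (by norm_num)
  have hA4 := hA 4 (by norm_num)
  have hA5 := hA 5 (by norm_num)
  have hA6 := hA 6 (by norm_num)
  have hA7 := hA 7 (by norm_num)
  cases a <;> simp [extra, cp, Gate.vars, hO, hE, hB, hB', hS, hS0, hS1, hT, hA0, hA1, hA2, hA3,
    hA4, hA5, hA6, hA7]

theorem pos_vars (a : Sym) (hp : p < L) : ∀ t ∈ posGates L p a, ∀ x ∈ t.2.vars, x < nV L := by
  intro t ht
  unfold posGates at ht
  rcases List.mem_append.1 ht with ht | ht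
  · rcases List.mem_append.1 ht with ht | ht
    · obtain ⟨d, hd, rfl⟩ := List.mem_map.1 ht
      rw [List.mem_range] at hd
      exact stack_vars a hp (by omega)
    · obtain ⟨d, hd, rfl⟩ := List.mem_map.1 ht
      rw [List.mem_range] at hd
      exact reg_vars a hp (by omega)
  · obtain ⟨x, hx, rfl⟩ := List.mem_map.1 ht
    exact extra_vars a hp x.1 ((List.fst_mem_of_mem_zipIdx hx))

end Vars

theorem tagged_vars (w : List Sym) : ∀ t ∈ tagged w, ∀ x ∈ t.2.vars, x < nV w.length := by
  intro t ht
  unfold tagged at ht
  rcases List.mem_append.1 ht with ht | ht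
  · simp only [List.mem_cons, List.not_mem_nil, or_false] at ht
    rcases ht with rfl | rfl | rfl
    · intro x hx
      simp only [Gate.vars, List.mem_singleton] at hx
      subst hx
      exact nO_lt _
    · intro x hx
      simp only [Gate.vars, List.mem_singleton] at hx
      subst hx
      exact nE_lt _
    · exact cp_vars (nS_lt (Nat.zero_le _) (Nat.zero_le _)) (nE_lt _)
  · obtain ⟨x, hx, ht⟩ := List.mem_flatMap.1 ht
    refine pos_vars x.1 ?_ t ht
    exact List.snd_lt_of_mem_zipIdx hx

/-! ### The system is well formed -/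

theorem sq_wf {n X σ : ℕ} (hX : X < σ) (hn : σ + 8 ≤ n) : ∀ c ∈ sqCons X σ, c.WF n := by
  simp only [sqCons, List.forall_mem_cons, Con.WF]
  simp
  omega

theorem prod_wf {n a b π : ℕ} (hab : a ≠ b) (ha : a < π) (hb : b < π) (hn : π + 27 ≤ n) :
    ∀ c ∈ prodCons a b π, c.WF n := by
  intro c hc
  simp only [prodCons, List.mem_append] at hc
  rcases hc with ((hc | hc) | hc) | hc
  · revert c
    simp only [List.forall_mem_cons, Con.WF]
    simp
    omega
  · exact sq_wf (by omega) (by omega) c hc
  · exact sq_wf (by omega) (by omega) c hc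
  · revert c
    simp only [List.forall_mem_cons, Con.WF]
    simp
    omega

theorem gate_wf {n r β : ℕ} {g : Gate} (hv : ∀ i ∈ g.vars, i < r) (hr : r < β)
    (hn : β + 63 ≤ n) : ∀ c ∈ gateCons r β g, c.WF n := by
  cases g with
  | lin i b =>
    have hi := hv i (by simp [Gate.vars])
    cases b with
    | false =>
      simp only [gateCons, Bool.false_eq_true, if_false, List.forall_mem_cons, Con.WF]
      simp
      omega
    | true =>
      simp only [gateCons, if_true, List.forall_mem_cons, Con.WF]
      simp
      omega
  | add i j k =>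
    have hi := hv i (by simp [Gate.vars])
    have hj := hv j (by simp [Gate.vars])
    have hk := hv k (by simp [Gate.vars])
    simp only [gateCons, List.forall_mem_cons, Con.WF]
    simp
    omega
  | mul i j k =>
    have hi := hv i (by simp [Gate.vars])
    have hj := hv j (by simp [Gate.vars])
    have hk := hv k (by simp [Gate.vars])
    intro c hc
    simp only [gateCons, List.mem_append] at hc
    rcases hc with ((hc | hc) | hc) | hc
    · revert c
      simp only [List.forall_mem_cons, Con.WF]
      simp
      omega
    · exact prod_wf (by omega) (by omega) (by omega) (by omega) c hc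
    · exact prod_wf (by omega) (by omega) (by omega) (by omega) c hc
    · revert c
      simp only [List.forall_mem_cons, Con.WF]
      simp
      omega

theorem chain_wf {L n : ℕ} (hn : nL L ≤ n) : ∀ c ∈ chainCons L, c.WF n := by
  intro c hc
  unfold nL at hn
  unfold chainCons at hc
  rw [List.mem_append] at hc
  rcases hc with hc | hc
  · revert c
    simp only [List.forall_mem_cons, Con.WF]
    simp
    omega
  · obtain ⟨j, hj, hc⟩ := List.mem_flatMap.1 hc
    rw [List.mem_range] at hj
    rcases List.mem_append.1 hc with hc | hc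
    · exact sq_wf (by omega) (by omega) c hc
    · rw [List.mem_singleton] at hc
      subst hc
      simp only [Con.WF]
      simp
      omega

theorem sys_wf (w : List Sym) : (sysOf w).WF := by
  constructor
  · simp [sysOf, chainCons]
  · intro c hc
    have hc' : c ∈ chainCons w.length ++ (tagged w).flatMap
      (fun t : ℕ × Gate => gateCons (nR w.length) (nL w.length + 63 * t.1) t.2) := hc
    show c.WF (nN w.length)
    rw [List.mem_append] at hc'
    rcases hc' with hc' | hc'
    · exact chain_wf (by unfold nN; omega) c hc'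
    · obtain ⟨t, ht, hc'⟩ := List.mem_flatMap.1 hc'
      have h1 := (tagged_sorted w).2 t ht
      refine gate_wf (fun i hi => ?_) ?_ ?_ c hc'
      · have := tagged_vars w t ht i hi
        unfold nR
        omega
      · unfold nR nL
        omega
      · unfold nN
        omega

theorem l7 : L7Stmt := fun w _ =>
  ⟨(tagged_sorted w).1.imp (fun h => ne_of_lt h),
    fun t ht => ⟨(tagged_sorted w).2 t ht, tagged_vars w t ht⟩, sys_wf w⟩

end Pool.Agent.Helper92_Pack
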