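import Pool.Agent.Helper92_Pack.L3

/-!
# L4, L5, L6: completeness of the gadgets, the scale, the gates
-/

namespace Pool.Agent.Helper92_Pack

open Pool.Agent.Helper2_Pack

/-- the local values of the squaring gadget -/
noncomputable def vSq (ε x : ℝ) : ℕ → ℝ
  | 0 => -(x / (1 + ε * x))
  | 1 => -x
  | 2 => x / (1 - ε * x)
  | 3 => x / (1 + ε * x) - x / (1 - ε * x)
  | 4 => ε * x ^ 2 / ((1 + ε * x) * (1 - ε * x))
  | 5 => ε * x ^ 2 / ((1 + ε * x) * (1 - ε * x))
  | 6 => -(ε * x ^ 2 / ((1 + ε * x) * (1 - ε * x)))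
  | 7 => -(ε * x ^ 2)
  | _ => 0

theorem div_diff {ε x : ℝ} (p1 : (1 + ε * x) ≠ 0) (p2 : (1 - ε * x) ≠ 0) :
    x / (1 + ε * x) - x / (1 - ε * x) =
      -(2 * (ε * x ^ 2)) / ((1 + ε * x) * (1 - ε * x)) := by
  rw [div_sub_div _ _ p1 p2]
  congr 1
  ring

section Sq

variable {ε x : ℝ} (h0 : 0 < ε) (h1 : ε ≤ 1 / 4) (hx : |x| ≤ 1 / 2)

include h0 h1 hx

theorem den_bds : 7 / 8 ≤ 1 + ε * x ∧ 7 / 8 ≤ 1 - ε * x := by
  obtain ⟨a, b⟩ := abs_le.mp hx
  constructor <;> nlinarith

theorem sq_bds : 0 ≤ ε * x ^ 2 ∧ ε * x ^ 2 ≤ 1 / 16 := by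
  obtain ⟨a, b⟩ := abs_le.mp hx
  have : x ^ 2 ≤ 1 / 4 := by nlinarith
  constructor
  · positivity
  · nlinarith [sq_nonneg x]

theorem vSq_bd (l : ℕ) : |vSq ε x l| ≤ 1 := by
  obtain ⟨d1, d2⟩ := den_bds h0 h1 hx
  obtain ⟨s1, s2⟩ := sq_bds h0 h1 hx
  obtain ⟨a, b⟩ := abs_le.mp hx
  have p1 : 0 < 1 + ε * x := by linarith
  have p2 : 0 < 1 - ε * x := by linarith
  have pp : 3 / 4 ≤ (1 + ε * x) * (1 - ε * x) := by nlinarith
  have p3 : 0 < (1 + ε * x) * (1 - ε * x) := by linarith
  have e4 : |ε * x ^ 2 / ((1 + ε * x) * (1 - ε * x))| ≤ 1 := by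
    rw [abs_of_nonneg (by positivity), div_le_one p3]
    linarith
  have e1 : |x / (1 + ε * x)| ≤ 1 := by
    rw [abs_div, abs_of_pos p1, div_le_one p1]
    linarith
  have e2 : |x / (1 - ε * x)| ≤ 1 := by
    rw [abs_div, abs_of_pos p2, div_le_one p2]
    linarith
  match l with
  | 0 => simpa [vSq] using e1
  | 1 => simpa [vSq] using hx.trans (by norm_num)
  | 2 => simpa [vSq] using e2
  | 3 =>
    show |x / (1 + ε * x) - x / (1 - ε * x)| ≤ 1
    rw [div_diff p1.ne' p2.ne', abs_div, abs_neg, abs_of_pos p3, abs_of_nonneg (by positivity),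
      div_le_one p3]
    linarith
  | 4 => simpa [vSq] using e4
  | 5 => simpa [vSq] using e4
  | 6 =>
    show |-(ε * x ^ 2 / ((1 + ε * x) * (1 - ε * x)))| ≤ 1
    rw [abs_neg]
    exact e4
  | 7 =>
    show |-(ε * x ^ 2)| ≤ 1
    rw [abs_neg, abs_of_nonneg s1]
    linarith
  | (n + 8) => simp [vSq]

theorem sq_complete (z : ℕ → ℝ) (X σ : ℕ) (hX : z X = x) (hz : ∀ l, l < 8 → z (σ + l) = vSq ε x l) :
    ∀ c ∈ sqCons X σ, c.Holds ε z := by
  obtain ⟨d1, d2⟩ := den_bds h0 h1 hx
  have p1 : (1 + ε * x) ≠ 0 := by linarith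
  have p2 : (1 - ε * x) ≠ 0 := by linarith
  have v0 : z σ = -(x / (1 + ε * x)) := hz 0 (by norm_num)
  have v1 : z (σ + 1) = -x := hz 1 (by norm_num)
  have v2 : z (σ + 2) = x / (1 - ε * x) := hz 2 (by norm_num)
  have v3 : z (σ + 3) = x / (1 + ε * x) - x / (1 - ε * x) := hz 3 (by norm_num)
  have v4 : z (σ + 4) = ε * x ^ 2 / ((1 + ε * x) * (1 - ε * x)) := hz 4 (by norm_num)
  have v5 : z (σ + 5) = ε * x ^ 2 / ((1 + ε * x) * (1 - ε * x)) := hz 5 (by norm_num)
  have v6 : z (σ + 6) = -(ε * x ^ 2 / ((1 + ε * x) * (1 - ε * x))) := hz 6 (by norm_num)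
  have v7 : z (σ + 7) = -(ε * x ^ 2) := hz 7 (by norm_num)
  simp only [sqCons, List.forall_mem_cons, Con.Holds, List.map_cons, List.map_nil,
    List.sum_cons, List.sum_nil, add_zero, Int.cast_zero]
  have hd := div_diff p1 p2
  have hU : x / (1 + ε * x) * (1 + ε * x) = x := div_mul_cancel₀ _ p1
  have hV : x / (1 - ε * x) * (1 - ε * x) = x := div_mul_cancel₀ _ p2
  have hW : ε * x ^ 2 / ((1 + ε * x) * (1 - ε * x)) * ((1 + ε * x) * (1 - ε * x)) = ε * x ^ 2 :=
    div_mul_cancel₀ _ (mul_ne_zero p1 p2)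
  have hd' : x / (1 + ε * x) - x / (1 - ε * x) =
      -(2 * (ε * x ^ 2 / ((1 + ε * x) * (1 - ε * x)))) := by
    rw [hd, neg_div, mul_div_assoc]
  rw [hX, v0, v1, v2, v3, v4, v5, v6, v7]
  generalize x / (1 + ε * x) = U at *
  generalize x / (1 - ε * x) = V at *
  generalize ε * x ^ 2 / ((1 + ε * x) * (1 - ε * x)) = W at *
  refine ⟨?_, ?_, ?_, ?_, ?_, ?_, ?_, ?_, ?_⟩
  · linear_combination -hU
  · ring
  · linear_combination hV
  · ring
  · linear_combination hd'
  · ring
  · ring
  · linear_combination hW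
  · simp

end Sq

/-- the first local values of the product gadget -/
noncomputable def vHead (x y : ℝ) : ℕ → ℝ
  | 0 => -(x + y)
  | 1 => (x + y) / 2
  | 2 => (x + y) / 2
  | 3 => -((x + y) / 2)
  | 4 => -y
  | 5 => y - x
  | 6 => (x - y) / 2
  | 7 => (x - y) / 2
  | _ => -((x - y) / 2)

/-- the local values of the product gadget -/
noncomputable def vProd (ε x y : ℝ) (l : ℕ) : ℝ :=
  if l < 9 then vHead x y l
  else if l < 17 then vSq ε ((x + y) / 2) (l - 9)
  else if l < 25 then vSq ε ((x - y) / 2) (l - 17)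
  else if l = 25 then ε * ((x + y) / 2) ^ 2
  else if l = 26 then -(ε * (x * y)) else 0

section Prod

variable {ε x y : ℝ} (h0 : 0 < ε) (h1 : ε ≤ 1 / 4) (hx : |x| ≤ 1 / 2) (hy : |y| ≤ 1 / 2)

include hx hy in
theorem half_bd : |(x + y) / 2| ≤ 1 / 2 ∧ |(x - y) / 2| ≤ 1 / 2 := by
  obtain ⟨a, b⟩ := abs_le.mp hx
  obtain ⟨c, d⟩ := abs_le.mp hy
  constructor <;> rw [abs_le] <;> constructor <;> linarith

include h0 h1 hx hy

theorem vProd_bd (l : ℕ) : |vProd ε x y l| ≤ 1 := by
  obtain ⟨hp, hm⟩ := half_bd hx hy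
  obtain ⟨a, b⟩ := abs_le.mp hx
  obtain ⟨c, d⟩ := abs_le.mp hy
  unfold vProd
  split_ifs with i1 i2 i3 i4 i5
  · unfold vHead
    split <;> rw [abs_le] <;> constructor <;> linarith
  · exact vSq_bd h0 h1 hp _
  · exact vSq_bd h0 h1 hm _
  · obtain ⟨s1, s2⟩ := sq_bds h0 h1 hp
    rw [abs_of_nonneg s1]
    linarith
  · rw [abs_neg, abs_mul, abs_mul, abs_of_pos h0]
    have h3 : |x| * |y| ≤ 1 / 2 * (1 / 2) :=
      mul_le_mul hx hy (abs_nonneg _) (by norm_num)
    have h4 : 0 ≤ |x| * |y| := by positivity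
    nlinarith
  · simp

theorem prod_complete (z : ℕ → ℝ) (a b π : ℕ) (ha : z a = x) (hb : z b = y)
    (hz : ∀ l, l < 27 → z (π + l) = vProd ε x y l) : ∀ c ∈ prodCons a b π, c.Holds ε z := by
  obtain ⟨hp, hm⟩ := half_bd hx hy
  have v0 : z π = -(x + y) := by have := hz 0 (by norm_num); simpa [vProd, vHead] using this
  have v1 : z (π + 1) = (x + y) / 2 := by
    have := hz 1 (by norm_num); simpa [vProd, vHead] using this
  have v2 : z (π + 2) = (x + y) / 2 := by
    have := hz 2 (by norm_num); simpa [vProd, vHead] using this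
  have v3 : z (π + 3) = -((x + y) / 2) := by
    have := hz 3 (by norm_num); simpa [vProd, vHead] using this
  have v4 : z (π + 4) = -y := by have := hz 4 (by norm_num); simpa [vProd, vHead] using this
  have v5 : z (π + 5) = y - x := by have := hz 5 (by norm_num); simpa [vProd, vHead] using this
  have v6 : z (π + 6) = (x - y) / 2 := by
    have := hz 6 (by norm_num); simpa [vProd, vHead] using this
  have v7 : z (π + 7) = (x - y) / 2 := by
    have := hz 7 (by norm_num); simpa [vProd, vHead] using this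
  have v8 : z (π + 8) = -((x - y) / 2) := by
    have := hz 8 (by norm_num); simpa [vProd, vHead] using this
  have v16 : z (π + 16) = -(ε * ((x + y) / 2) ^ 2) := by
    have := hz 16 (by norm_num); simpa [vProd, vHead, vSq] using this
  have v24 : z (π + 24) = -(ε * ((x - y) / 2) ^ 2) := by
    have := hz 24 (by norm_num); simpa [vProd, vHead, vSq] using this
  have v25 : z (π + 25) = ε * ((x + y) / 2) ^ 2 := by
    have := hz 25 (by norm_num); simpa [vProd, vHead] using this
  have v26 : z (π + 26) = -(ε * (x * y)) := by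
    have := hz 26 (by norm_num); simpa [vProd, vHead] using this
  have s1 : ∀ c ∈ sqCons (π + 1) (π + 9), c.Holds ε z :=
    sq_complete h0 h1 hp z (π + 1) (π + 9) v1 (fun l hl => by
      have := hz (9 + l) (by omega)
      have e1 : ¬ (9 + l < 9) := by omega
      have e2 : 9 + l < 17 := by omega
      have e3 : 9 + l - 9 = l := by omega
      rw [vProd, if_neg e1, if_pos e2, e3] at this
      rw [add_assoc]
      exact this)
  have s2 : ∀ c ∈ sqCons (π + 6) (π + 17), c.Holds ε z :=
    sq_complete h0 h1 hm z (π + 6) (π + 17) v6 (fun l hl => by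
      have := hz (17 + l) (by omega)
      have e1 : ¬ (17 + l < 9) := by omega
      have e2 : ¬ (17 + l < 17) := by omega
      have e4 : 17 + l < 25 := by omega
      have e3 : 17 + l - 17 = l := by omega
      rw [vProd, if_neg e1, if_neg e2, if_pos e4, e3] at this
      rw [add_assoc]
      exact this)
  intro c hc
  simp only [prodCons, List.mem_append] at hc
  rcases hc with ((hc | hc) | hc) | hc
  · revert c
    simp only [List.forall_mem_cons, Con.Holds, List.map_cons, List.map_nil,
      List.sum_cons, List.sum_nil, add_zero, Int.cast_zero]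
    rw [ha, hb, v0, v1, v2, v3, v4, v5, v6, v7, v8]
    refine ⟨by ring, by ring, by ring, by ring, by ring, by ring, by ring, by ring, by ring, ?_⟩
    simp
  · exact s1 c hc
  · exact s2 c hc
  · revert c
    simp only [List.forall_mem_cons, Con.Holds, List.map_cons, List.map_nil,
      List.sum_cons, List.sum_nil, add_zero, Int.cast_zero]
    rw [v16, v24, v25, v26]
    refine ⟨by ring, by ring, ?_⟩
    simp

end Prod

theorem l4 : L4Stmt := fun ε h0 h1 =>
  ⟨fun x hx => ⟨vSq ε x, vSq_bd h0 h1 hx, rfl, fun z X σ hX hz => sq_complete h0 h1 hx z X σ hX hz⟩,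
    fun x y hx hy => ⟨vProd ε x y, vProd_bd h0 h1 hx hy, by simp [vProd],
      fun z a b π ha hb hz => prod_complete h0 h1 hx hy z a b π ha hb hz⟩⟩

/-! ### L6 -/

/-- the first local values of a multiplication gate -/
noncomputable def mHead (ρ a b c : ℝ) : ℕ → ℝ
  | 0 => -ρ
  | 1 => ρ
  | 2 => -a
  | 3 => a
  | 4 => -b
  | 5 => b
  | 6 => -c
  | _ => c

/-- the local values of a multiplication gate -/
noncomputable def vMul (ε ρ a b c : ℝ) (l : ℕ) : ℝ :=
  if l < 8 then mHead ρ a b c l
  else if l < 35 then vProd ε ρ a (l - 8)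
  else if l < 62 then vProd ε b c (l - 35)
  else if l = 62 then ε * (ρ * a) else 0

/-- the local values of a gate -/
noncomputable def vGate (ε ρ : ℝ) (z₀ : ℕ → ℝ) : Gate → ℕ → ℝ
  | .lin _ _, l => if l = 0 then -ρ else 0
  | .add _ j k, l => if l = 0 then -(ρ * z₀ j) else if l = 1 then -(ρ * z₀ k) else 0
  | .mul i j k, l => vMul ε ρ (ρ * z₀ i) (ρ * z₀ j) (ρ * z₀ k) l

theorem l6 : L6Stmt := by
  intro ε ρ z₀ g h0 h1 hρ0 hρ1 hg hv
  have hρ : |ρ| ≤ 1 / 2 := by rw [abs_of_pos hρ0]; exact hρ1
  refine ⟨vGate ε ρ z₀ g, ?_, ?_⟩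
  · intro l
    cases g with
    | lin i b =>
      simp only [vGate]
      split_ifs
      · rw [abs_neg]; linarith
      · simp
    | add i j k =>
      have hj := hv j (by simp [Gate.vars])
      have hk := hv k (by simp [Gate.vars])
      simp only [vGate]
      split_ifs
      · rw [abs_neg]; linarith
      · rw [abs_neg]; linarith
      · simp
    | mul i j k =>
      have hi := hv i (by simp [Gate.vars])
      have hj := hv j (by simp [Gate.vars])
      have hk := hv k (by simp [Gate.vars])
      simp only [vGate, vMul]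
      split_ifs with i1 i2 i3 i4
      · unfold mHead
        split <;> (try rw [abs_neg]) <;> linarith
      · exact vProd_bd h0 h1 hρ hi _
      · exact vProd_bd h0 h1 hj hk _
      · rw [abs_mul, abs_mul, abs_of_pos h0]
        have h3 : |ρ| * |ρ * z₀ i| ≤ 1 / 2 * (1 / 2) :=
          mul_le_mul hρ hi (abs_nonneg _) (by norm_num)
        have h4 : 0 ≤ |ρ| * |ρ * z₀ i| := by positivity
        nlinarith
      · simp
  · intro z r β hr hz hl
    cases g with
    | lin i b =>
      have hi := hz i (by simp [Gate.vars])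
      have v0 : z β = -ρ := by have := hl 0 (by norm_num); simpa [vGate, vMul, mHead] using this
      simp only [Gate.Holds] at hg
      cases b with
      | false =>
        simp only [gateCons, Bool.false_eq_true, if_false, List.forall_mem_cons, Con.Holds,
          List.map_cons, List.map_nil, List.sum_cons, List.sum_nil, add_zero, Int.cast_zero] at hg ⊢
        rw [hi, hg]
        simp
      | true =>
        simp only [gateCons, if_true, List.forall_mem_cons, Con.Holds,
          List.map_cons, List.map_nil, List.sum_cons, List.sum_nil, add_zero, Int.cast_zero] at hg ⊢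
        rw [hi, hg, v0, hr]
        simp
    | add i j k =>
      have hi := hz i (by simp [Gate.vars])
      have hj := hz j (by simp [Gate.vars])
      have hk := hz k (by simp [Gate.vars])
      have v0 : z β = -(ρ * z₀ j) := by have := hl 0 (by norm_num); simpa [vGate, vMul, mHead] using this
      have v1 : z (β + 1) = -(ρ * z₀ k) := by
        have := hl 1 (by norm_num); simpa [vGate, vMul, mHead] using this
      simp only [Gate.Holds] at hg
      simp only [gateCons, List.forall_mem_cons, Con.Holds,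
        List.map_cons, List.map_nil, List.sum_cons, List.sum_nil, add_zero, Int.cast_zero]
      rw [hi, hj, hk, v0, v1, hg]
      refine ⟨by ring, by ring, by ring, ?_⟩
      simp
    | mul i j k =>
      have bi := hv i (by simp [Gate.vars])
      have bj := hv j (by simp [Gate.vars])
      have bk := hv k (by simp [Gate.vars])
      have hi := hz i (by simp [Gate.vars])
      have hj := hz j (by simp [Gate.vars])
      have hk := hz k (by simp [Gate.vars])
      have v0 : z β = -ρ := by have := hl 0 (by norm_num); simpa [vGate, vMul, mHead] using this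
      have v1 : z (β + 1) = ρ := by have := hl 1 (by norm_num); simpa [vGate, vMul, mHead] using this
      have v2 : z (β + 2) = -(ρ * z₀ i) := by
        have := hl 2 (by norm_num); simpa [vGate, vMul, mHead] using this
      have v3 : z (β + 3) = ρ * z₀ i := by have := hl 3 (by norm_num); simpa [vGate, vMul, mHead] using this
      have v4 : z (β + 4) = -(ρ * z₀ j) := by
        have := hl 4 (by norm_num); simpa [vGate, vMul, mHead] using this
      have v5 : z (β + 5) = ρ * z₀ j := by have := hl 5 (by norm_num); simpa [vGate, vMul, mHead] using this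
      have v6 : z (β + 6) = -(ρ * z₀ k) := by
        have := hl 6 (by norm_num); simpa [vGate, vMul, mHead] using this
      have v7 : z (β + 7) = ρ * z₀ k := by have := hl 7 (by norm_num); simpa [vGate, vMul, mHead] using this
      have v34 : z (β + 34) = -(ε * (ρ * (ρ * z₀ i))) := by
        have := hl 34 (by norm_num); simpa [vGate, vMul, mHead, vProd] using this
      have v61 : z (β + 61) = -(ε * (ρ * z₀ j * (ρ * z₀ k))) := by
        have := hl 61 (by norm_num); simpa [vGate, vMul, mHead, vProd] using this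
      have v62 : z (β + 62) = ε * (ρ * (ρ * z₀ i)) := by
        have := hl 62 (by norm_num); simpa [vGate, vMul, mHead] using this
      have s1 : ∀ c ∈ prodCons (β + 1) (β + 3) (β + 8), c.Holds ε z :=
        prod_complete h0 h1 hρ bi z (β + 1) (β + 3) (β + 8) v1 v3 (fun l hl' => by
          have := hl (8 + l) (by omega)
          have e1 : ¬ (8 + l < 8) := by omega
          have e2 : 8 + l < 35 := by omega
          have e3 : 8 + l - 8 = l := by omega
          rw [vGate, vMul, if_neg e1, if_pos e2, e3] at this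
          rw [add_assoc]
          exact this)
      have s2 : ∀ c ∈ prodCons (β + 5) (β + 7) (β + 35), c.Holds ε z :=
        prod_complete h0 h1 bj bk z (β + 5) (β + 7) (β + 35) v5 v7 (fun l hl' => by
          have := hl (35 + l) (by omega)
          have e1 : ¬ (35 + l < 8) := by omega
          have e2 : ¬ (35 + l < 35) := by omega
          have e4 : 35 + l < 62 := by omega
          have e3 : 35 + l - 35 = l := by omega
          rw [vGate, vMul, if_neg e1, if_neg e2, if_pos e4, e3] at this
          rw [add_assoc]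
          exact this)
      simp only [Gate.Holds] at hg
      intro c hc
      simp only [gateCons, List.mem_append] at hc
      rcases hc with ((hc | hc) | hc) | hc
      · revert c
        simp only [List.forall_mem_cons, Con.Holds, List.map_cons, List.map_nil,
          List.sum_cons, List.sum_nil, add_zero, Int.cast_zero]
        rw [hi, hj, hk, hr, v0, v1, v2, v3, v4, v5, v6, v7]
        refine ⟨by ring, by ring, by ring, by ring, by ring, by ring, by ring, by ring, ?_⟩
        simp
      · exact s1 c hc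
      · exact s2 c hc
      · revert c
        simp only [List.forall_mem_cons, Con.Holds, List.map_cons, List.map_nil,
          List.sum_cons, List.sum_nil, add_zero, Int.cast_zero]
        rw [v34, v61, v62, hg]
        refine ⟨by ring, by ring, ?_⟩
        simp

/-! ### L5 -/

theorem rho_pos {ε : ℝ} (h0 : 0 < ε) (k : ℕ) : 0 < rho ε k := by
  unfold rho
  positivity

theorem rho_le {ε : ℝ} (h0 : 0 < ε) (h1 : ε ≤ 1 / 4) (k : ℕ) : rho ε k ≤ 1 / 2 ^ 2 ^ k := by
  unfold rho
  have : ε ^ (2 ^ k - 1) ≤ 1 := pow_le_one₀ h0.le (by linarith)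
  gcongr

theorem rho_succ (ε : ℝ) (k : ℕ) : rho ε (k + 1) = ε * rho ε k ^ 2 := by
  unfold rho
  have h2 : 1 ≤ 2 ^ k := Nat.one_le_two_pow
  have e1 : 2 ^ (k + 1) - 1 = 1 + (2 ^ k - 1) * 2 := by
    rw [pow_succ]
    omega
  have e2 : 2 ^ (k + 1) = 2 ^ k * 2 := pow_succ 2 k
  rw [e1, e2, pow_add, pow_one, pow_mul, pow_mul, div_pow, mul_div_assoc]

theorem rho_half {ε : ℝ} (h0 : 0 < ε) (h1 : ε ≤ 1 / 4) (k : ℕ) : rho ε k ≤ 1 / 2 := by
  refine (rho_le h0 h1 k).trans ?_
  have : (2 : ℝ) ^ 1 ≤ 2 ^ 2 ^ k := pow_le_pow_right₀ (by norm_num) Nat.one_le_two_pow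
  rw [pow_one] at this
  exact one_div_le_one_div_of_le (by norm_num) this

theorem rho_abs {ε : ℝ} (h0 : 0 < ε) (h1 : ε ≤ 1 / 4) (k : ℕ) : |rho ε k| ≤ 1 / 2 := by
  rw [abs_of_pos (rho_pos h0 k)]
  exact rho_half h0 h1 k

/-- the values in the chain, from its first variable -/
noncomputable def vChain (ε : ℝ) (l : ℕ) : ℝ :=
  if l = 0 then 1 / 2 else if l = 1 then -(1 / 2)
  else if (l - 2) % 9 = 0 then rho ε ((l - 2) / 9) else
    vSq ε (rho ε ((l - 2) / 9)) ((l - 2) % 9 - 1)

theorem vChain_bd {ε : ℝ} (h0 : 0 < ε) (h1 : ε ≤ 1 / 4) (l : ℕ) : |vChain ε l| ≤ 1 := by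
  unfold vChain
  split_ifs
  · rw [abs_of_pos] <;> norm_num
  · rw [abs_neg, abs_of_pos] <;> norm_num
  · exact (rho_abs h0 h1 _).trans (by norm_num)
  · exact vSq_bd h0 h1 (rho_abs h0 h1 _) _

theorem vChain_node (ε : ℝ) (j : ℕ) : vChain ε (2 + 9 * j) = rho ε j := by
  unfold vChain
  have e1 : ¬ (2 + 9 * j = 0) := by omega
  have e2 : ¬ (2 + 9 * j = 1) := by omega
  have e3 : (2 + 9 * j - 2) % 9 = 0 := by omega
  have e4 : (2 + 9 * j - 2) / 9 = j := by omega
  rw [if_neg e1, if_neg e2, if_pos e3, e4]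

theorem vChain_loc (ε : ℝ) (j m : ℕ) (hm : m < 8) :
    vChain ε (2 + 9 * j + 1 + m) = vSq ε (rho ε j) m := by
  unfold vChain
  have e1 : ¬ (2 + 9 * j + 1 + m = 0) := by omega
  have e2 : ¬ (2 + 9 * j + 1 + m = 1) := by omega
  have e3 : ¬ ((2 + 9 * j + 1 + m - 2) % 9 = 0) := by omega
  have e4 : (2 + 9 * j + 1 + m - 2) / 9 = j := by omega
  have e5 : (2 + 9 * j + 1 + m - 2) % 9 - 1 = m := by omega
  rw [if_neg e1, if_neg e2, if_neg e3, e4, e5]

theorem l5 : L5Stmt := by
  intro ε L h0 h1
  have h3 := l3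
  refine ⟨fun k => ⟨rho_pos h0 k, rho_le h0 h1 k, rho_succ ε k⟩, ?_, ?_⟩
  · intro z hz hc
    have hc1 : ∀ c ∈ ([.sum [nV L, nV L + 2] 1, .sum [nV L + 1, nV L + 2] 0,
        .sum [nV L, nV L + 1] 0] : List Con), c.Holds ε z := fun c h => hc c (by
      unfold chainCons
      exact List.mem_append_left _ h)
    have hc2 : ∀ j < nK L, ∀ c ∈ sqCons (nV L + 2 + 9 * j) (nV L + 2 + 9 * j + 1) ++
        [.sum [nV L + 2 + 9 * j + 8, nV L + 2 + 9 * j + 9] 0], c.Holds ε z := fun j hj c h =>
      hc c (by
        unfold chainCons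
        refine List.mem_append_right _ (List.mem_flatMap.2 ⟨j, List.mem_range.2 hj, h⟩))
    simp only [List.forall_mem_cons, Con.Holds, List.map_cons, List.map_nil,
      List.sum_cons, List.sum_nil, add_zero, Int.cast_zero, Int.cast_one] at hc1
    obtain ⟨g1, g2, g3, -⟩ := hc1
    have key : ∀ j ≤ nK L, z (nV L + 2 + 9 * j) = rho ε j := by
      intro j
      induction j with
      | zero =>
        intro _
        have : z (nV L + 2) = 1 / 2 := by linarith
        simpa [rho] using this
      | succ j ih =>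
        intro hj
        have hj' := ih (by omega)
        have hq := (h3 ε z h0 h1 hz).1 (nV L + 2 + 9 * j) (nV L + 2 + 9 * j + 1) (fun c h =>
          hc2 j (by omega) c (List.mem_append_left _ h))
        have hs : (Con.sum [nV L + 2 + 9 * j + 8, nV L + 2 + 9 * j + 9] 0).Holds ε z :=
          hc2 j (by omega) _ (List.mem_append_right _ (List.mem_singleton.2 rfl))
        simp only [Con.Holds, List.map_cons, List.map_nil,
          List.sum_cons, List.sum_nil, add_zero, Int.cast_zero] at hs
        have hq' : z (nV L + 2 + 9 * j + 8) = -(ε * z (nV L + 2 + 9 * j) ^ 2) := hq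
        have e : nV L + 2 + 9 * (j + 1) = nV L + 2 + 9 * j + 9 := by ring
        rw [e, rho_succ, ← hj']
        linarith
    exact key (nK L) le_rfl
  · refine ⟨vChain ε, vChain_bd h0 h1, ?_⟩
    intro z hz
    have hn : ∀ j ≤ nK L, z (nV L + 2 + 9 * j) = rho ε j := by
      intro j hj
      have := hz (2 + 9 * j) (by omega)
      rw [vChain_node, ← add_assoc] at this
      exact this
    refine ⟨hn (nK L) le_rfl, ?_⟩
    intro c hc
    unfold chainCons at hc
    rw [List.mem_append] at hc
    rcases hc with hc | hc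
    · have w0 : z (nV L) = 1 / 2 := by
        have := hz 0 (by omega)
        simpa [vChain] using this
      have w1 : z (nV L + 1) = -(1 / 2) := by
        have := hz 1 (by omega)
        simpa [vChain] using this
      have w2 : z (nV L + 2) = 1 / 2 := by
        have := hn 0 (Nat.zero_le _)
        simpa [rho] using this
      revert c
      simp only [List.forall_mem_cons, Con.Holds, List.map_cons, List.map_nil,
        List.sum_cons, List.sum_nil, add_zero, Int.cast_zero, Int.cast_one]
      rw [w0, w1, w2]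
      refine ⟨by norm_num, by norm_num, by norm_num, ?_⟩
      simp
    · obtain ⟨j, hj, hc⟩ := List.mem_flatMap.1 hc
      rw [List.mem_range] at hj
      have hx := hn j hj.le
      rcases List.mem_append.1 hc with hc | hc
      · refine sq_complete h0 h1 (rho_abs h0 h1 j) z _ _ hx (fun m hm => ?_) c hc
        have := hz (2 + 9 * j + 1 + m) (by omega)
        rw [vChain_loc ε j m hm] at this
        rw [← this]
        congr 1
        ring
      · rw [List.mem_singleton] at hc
        subst hc
        simp only [Con.Holds, List.map_cons, List.map_nil,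
          List.sum_cons, List.sum_nil, add_zero, Int.cast_zero]
        have q1 : z (nV L + 2 + 9 * j + 8) = -(ε * rho ε j ^ 2) := by
          have := hz (2 + 9 * j + 1 + 7) (by omega)
          rw [vChain_loc ε j 7 (by norm_num)] at this
          rw [show nV L + 2 + 9 * j + 8 = nV L + (2 + 9 * j + 1 + 7) by ring, this]
          rfl
        have q2 : z (nV L + 2 + 9 * j + 9) = ε * rho ε j ^ 2 := by
          have := hn (j + 1) hj
          rw [rho_succ] at this
          rw [← this]
          congr 1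
        rw [q1, q2]
        ring

end Pool.Agent.Helper92_Pack
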