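import Pool.Agent.Helper92_Pack.L2
import Pool.Agent.Helper92_Pack.L4

/-!
# L8: the system is equivalent to the gates
-/

namespace Pool.Agent.Helper92_Pack

open Pool.Agent.Helper2_Pack
open Pool.Agent.Helper53_Closed (Sym)

theorem con_congr {n : ℕ} {ε : ℝ} {c : Con} (hc : c.WF n) {z z' : ℕ → ℝ}
    (h : ∀ i, i < n → z i = z' i) : c.Holds ε z ↔ c.Holds ε z' := by
  cases c with
  | sum I κ =>
    simp only [Con.Holds]
    have : I.map z = I.map z' := List.map_congr_left (fun i hi => h i (hc.2.2.2.1 i hi))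
    rw [this]
  | inv i j =>
    have h1 : i < j := hc.1
    have h2 : j < n := hc.2
    simp only [Con.Holds]
    rw [h i (h1.trans h2), h j h2]

theorem gate_of_cons {ε : ℝ} {z : ℕ → ℝ} (h0 : 0 < ε) (h1 : ε ≤ 1 / 4) (hz : ∀ i, |z i| ≤ 1)
    {r β : ℕ} {g : Gate} (hr : 0 < z r) (h : ∀ c ∈ gateCons r β g, c.Holds ε z) :
    g.Holds (fun i => z i / z r) := by
  cases g with
  | lin i b =>
    cases b with
    | false =>
      simp only [gateCons, Bool.false_eq_true, if_false, List.forall_mem_cons, Con.Holds,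
        List.map_cons, List.map_nil, List.sum_cons, List.sum_nil, add_zero, Int.cast_zero] at h
      simp only [Gate.Holds, Bool.false_eq_true, if_false]
      rw [h.1, zero_div]
    | true =>
      simp only [gateCons, if_true, List.forall_mem_cons, Con.Holds,
        List.map_cons, List.map_nil, List.sum_cons, List.sum_nil, add_zero, Int.cast_zero] at h
      simp only [Gate.Holds, if_true]
      have : z i = z r := by linarith [h.1, h.2.1]
      rw [this, div_self hr.ne']
  | add i j k =>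
    simp only [gateCons, List.forall_mem_cons, Con.Holds,
      List.map_cons, List.map_nil, List.sum_cons, List.sum_nil, add_zero, Int.cast_zero] at h
    simp only [Gate.Holds]
    have : z i = z j + z k := by linarith [h.1, h.2.1, h.2.2.1]
    rw [this, add_div]
  | mul i j k =>
    have := mul_sound h0 h1 hz r β i j k h
    simp only [Gate.Holds]
    field_simp
    linarith

theorem rho_bd {ε : ℝ} (h0 : 0 < ε) (h1 : ε ≤ 1 / 4) (m : ℕ) {x : ℝ} (hx : |x| ≤ 2 ^ 2 ^ m) :
    |rho ε (m + 1) * x| ≤ 1 / 2 := by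
  have hA : (2 : ℝ) ≤ 2 ^ 2 ^ m := by
    have : (2 : ℝ) ^ 1 ≤ 2 ^ 2 ^ m := pow_le_pow_right₀ (by norm_num) Nat.one_le_two_pow
    simpa using this
  have hr := rho_le h0 h1 (m + 1)
  have hr0 := rho_pos h0 (m + 1)
  have e : (2 : ℝ) ^ 2 ^ (m + 1) = 2 ^ 2 ^ m * 2 ^ 2 ^ m := by
    rw [← pow_add, ← two_mul, pow_succ']
  rw [e] at hr
  generalize hAd : (2 : ℝ) ^ 2 ^ m = A at hx hA hr
  have hA0 : 0 < A := by linarith
  rw [abs_mul, abs_of_pos hr0]
  calc rho ε (m + 1) * |x| ≤ 1 / (A * A) * A :=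
        mul_le_mul hr hx (abs_nonneg _) (by positivity)
    _ = 1 / A := by field_simp
    _ ≤ 1 / 2 := one_div_le_one_div_of_le (by norm_num) hA

theorem l8 : L8Stmt := by
  intro w ε hw h0 h1
  obtain ⟨hnd, hlt, hwf⟩ := l7 w hw
  set L := w.length with hL
  constructor
  · intro hex
    obtain ⟨z₀, hz₀, hbd⟩ := l2 w hex
    set ρ := rho ε (nK L) with hρ
    have hρ0 : 0 < ρ := rho_pos h0 _
    have hρ1 : ρ ≤ 1 / 2 := rho_half h0 h1 _
    have hsmall : ∀ i, i < nV L → |ρ * z₀ i| ≤ 1 / 2 := by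
      intro i hi
      exact rho_bd h0 h1 (5 * nV L + 6) (hbd i hi)
    obtain ⟨vc, hvc1, hvc2⟩ := (l5 ε L h0 h1).2.2
    have hV : ∀ t : ℕ × Gate, ∃ v : ℕ → ℝ, t ∈ tagged w → (∀ l, |v l| ≤ 1) ∧
        ∀ (z : ℕ → ℝ) (r β : ℕ), z r = ρ → (∀ i ∈ t.2.vars, z i = ρ * z₀ i) →
        (∀ l, l < 63 → z (β + l) = v l) → ∀ c ∈ gateCons r β t.2, c.Holds ε z := by
      intro t
      by_cases ht : t ∈ tagged w
      · obtain ⟨v, hv1, hv2⟩ := l6 ε ρ z₀ t.2 h0 h1 hρ0 hρ1 (hz₀ t ht)
          (fun i hi => hsmall i ((hlt t ht).2 i hi))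
        exact ⟨v, fun _ => ⟨hv1, hv2⟩⟩
      · exact ⟨0, fun h => absurd h ht⟩
    choose V hV using hV
    -- the values of the gate with a given number
    have hQ : ∀ q : ℕ, ∃ v : ℕ → ℝ, (∀ l, |v l| ≤ 1) ∧ ∀ t ∈ tagged w, t.1 = q → v = V t := by
      intro q
      by_cases hq : ∃ t ∈ tagged w, t.1 = q
      · obtain ⟨t, ht, htq⟩ := hq
        refine ⟨V t, (hV t ht).1, fun t' ht' ht'q => ?_⟩
        have : t' = t := List.inj_on_of_nodup_map hnd ht' ht (ht'q.trans htq.symm)
        rw [this]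
      · refine ⟨0, fun l => by simp, fun t ht htq => absurd ⟨t, ht, htq⟩ hq⟩
    choose Q hQ1 hQ2 using hQ
    set z : ℕ → ℝ := fun i => if i < nV L then ρ * z₀ i else if i < nL L then vc (i - nV L)
      else Q ((i - nL L) / 63) ((i - nL L) % 63) with hzd
    have hz1 : ∀ i, i < nV L → z i = ρ * z₀ i := fun i hi => if_pos hi
    have hz2 : ∀ l, l < 9 * nK L + 3 → z (nV L + l) = vc l := by
      intro l hl
      have e1 : ¬ (nV L + l < nV L) := by omega
      have e2 : nV L + l < nL L := by unfold nL; omega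
      have e3 : nV L + l - nV L = l := by omega
      show (if nV L + l < nV L then _ else if nV L + l < nL L then vc (nV L + l - nV L) else _) = _
      rw [if_neg e1, if_pos e2, e3]
    have hz3 : ∀ q l, l < 63 → z (nL L + 63 * q + l) = Q q l := by
      intro q l hl
      have e0 : nV L < nL L := by unfold nL; omega
      have e1 : ¬ (nL L + 63 * q + l < nV L) := by omega
      have e2 : ¬ (nL L + 63 * q + l < nL L) := by omega
      have e3 : (nL L + 63 * q + l - nL L) / 63 = q := by omega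
      have e4 : (nL L + 63 * q + l - nL L) % 63 = l := by omega
      show (if nL L + 63 * q + l < nV L then _ else if nL L + 63 * q + l < nL L then _ else
        Q ((nL L + 63 * q + l - nL L) / 63) ((nL L + 63 * q + l - nL L) % 63)) = _
      rw [if_neg e1, if_neg e2, e3, e4]
    obtain ⟨hR, hchain⟩ := hvc2 z hz2
    refine ⟨z, fun i _ => ?_, ?_⟩
    · show |if i < nV L then ρ * z₀ i else if i < nL L then vc (i - nV L)
        else Q ((i - nL L) / 63) ((i - nL L) % 63)| ≤ 1
      split_ifs with i1 i2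
      · exact (hsmall i i1).trans (by norm_num)
      · exact hvc1 _
      · exact hQ1 _ _
    · intro c hc
      have hc' : c ∈ chainCons L ++ (tagged w).flatMap
        (fun t : ℕ × Gate => gateCons (nR L) (nL L + 63 * t.1) t.2) := hc
      rw [List.mem_append] at hc'
      rcases hc' with hc' | hc'
      · exact hchain c hc'
      · obtain ⟨t, ht, hc'⟩ := List.mem_flatMap.1 hc'
        refine (hV t ht).2 z (nR L) (nL L + 63 * t.1) hR
          (fun i hi => hz1 i ((hlt t ht).2 i hi)) (fun l hl => ?_) c hc'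
        rw [hz3 t.1 l hl, hQ2 t.1 t ht rfl]
  · rintro ⟨z, hz, hc⟩
    set z' : ℕ → ℝ := fun i => if i < nN L then z i else 0 with hz'
    have hzz : ∀ i, i < nN L → z i = z' i := fun i hi => (if_pos hi).symm
    have hb : ∀ i, |z' i| ≤ 1 := by
      intro i
      show |if i < nN L then z i else 0| ≤ 1
      split_ifs with hi
      · exact hz i hi
      · simp
    have hc' : ∀ c ∈ (sysOf w).cons, c.Holds ε z' := fun c h =>
      (con_congr (hwf.2 c h) hzz).1 (hc c h)
    have hchain : ∀ c ∈ chainCons L, c.Holds ε z' := fun c h =>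
      hc' c (List.mem_append_left _ h)
    have hR := (l5 ε L h0 h1).2.1 z' hb hchain
    have hR0 : 0 < z' (nR L) := by
      rw [hR]
      exact rho_pos h0 _
    refine ⟨fun i => z' i / z' (nR L), fun t ht => ?_⟩
    refine gate_of_cons (β := nL L + 63 * t.1) h0 h1 hb hR0 (fun c h => hc' c ?_)
    exact List.mem_append_right _ (List.mem_flatMap.2 ⟨t, ht, h⟩)

end Pool.Agent.Helper92_Pack
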