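import Pool.Agent.Helper53_Closed.Sys
import Pool.Agent.Helper53_Closed.Bounds
import Pool.Agent.Helper92_Pack.L7

/-!
# L2: there is a solution in a ball of explicit radius
-/

namespace Pool.Agent.Helper92_Pack

open Pool.Agent.Helper2_Pack
open Pool.Agent.Helper53_Closed (Sym Eqn Sat obj slen HB HB_le sys_upper)

/-- a gate as an equation -/
def toEqn {N : ℕ} (f : ℕ → Fin N) : Gate → Eqn (Fin N)
  | .lin i b => .lin (f i) (if b then 1 else 0)
  | .add i j k => .add (f i) (f j) (f k)
  | .mul i j k => .mul (f i) (f j) (f k)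

theorem toEqn_holds {N : ℕ} (f : ℕ → Fin N) (b : ℝ) (z : Fin N → ℝ) (g : Gate) :
    (toEqn f g).Holds b z ↔ g.Holds (fun i => z (f i)) := by
  cases g with
  | lin i c =>
    cases c <;> simp [toEqn, Eqn.Holds, Eqn.val, Gate.Holds, sub_eq_zero]
  | add i j k => simp only [toEqn, Eqn.Holds, Eqn.val, Gate.Holds, sub_eq_zero]
  | mul i j k => simp only [toEqn, Eqn.Holds, Eqn.val, Gate.Holds, sub_eq_zero]

theorem toEqn_size {N : ℕ} (f : ℕ → Fin N) (g : Gate) : (toEqn f g).size ^ 2 ≤ 9 := by
  cases g with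
  | lin i c => cases c <;> simp [toEqn, Eqn.size]
  | add i j k => simp [toEqn, Eqn.size]
  | mul i j k => simp [toEqn, Eqn.size]

theorem gate_congr {g : Gate} {z z' : ℕ → ℝ} (h : ∀ i ∈ g.vars, z i = z' i) :
    g.Holds z ↔ g.Holds z' := by
  cases g with
  | lin i c =>
    have hi := h i (by simp [Gate.vars])
    simp only [Gate.Holds, hi]
  | add i j k =>
    have hi := h i (by simp [Gate.vars])
    have hj := h j (by simp [Gate.vars])
    have hk := h k (by simp [Gate.vars])
    simp only [Gate.Holds, hi, hj, hk]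
  | mul i j k =>
    have hi := h i (by simp [Gate.vars])
    have hj := h j (by simp [Gate.vars])
    have hk := h k (by simp [Gate.vars])
    simp only [Gate.Holds, hi, hj, hk]

theorem tagged_length (w : List Sym) : (tagged w).length ≤ nG w.length := by
  obtain ⟨h1, h2⟩ := tagged_sorted w
  have hn : ((tagged w).map Prod.fst).Nodup := h1.imp (fun h => ne_of_lt h)
  have hc := List.toFinset_card_of_nodup hn
  rw [List.length_map] at hc
  rw [← hc, ← Finset.card_range (nG w.length)]
  refine Finset.card_le_card (fun i hi => ?_)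
  rw [List.mem_toFinset, List.mem_map] at hi
  obtain ⟨t, ht, rfl⟩ := hi
  exact Finset.mem_range.2 (h2 t ht)

theorem ten_le (n : ℕ) (hn : 6 ≤ n) : 10 * n ≤ 2 ^ n := by
  induction n, hn using Nat.le_induction with
  | base => norm_num
  | succ n hn ih =>
    rw [pow_succ]
    omega

theorem abs_aux {A y : ℝ} (hA : 2 ≤ A) (h : y ^ 2 ≤ A + 1) : |y| ≤ A := by
  have h1 : y ^ 2 ≤ A ^ 2 := by nlinarith
  exact abs_le_of_sq_le_sq h1 (by linarith)

theorem l2 : L2Stmt := by
  intro w hw
  obtain ⟨z, hz⟩ := hw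
  set L := w.length with hL
  set N := nV L with hN
  have hN14 : 14 ≤ N := by
    rw [hN]
    unfold nV
    nlinarith [Nat.zero_le L]
  have hNpos : 0 < N := by omega
  set f : ℕ → Fin N := fun i => ⟨i % N, Nat.mod_lt _ hNpos⟩ with hf
  have hfi : ∀ i (hi : i < N), f i = ⟨i, hi⟩ := fun i hi => Fin.ext (Nat.mod_eq_of_lt hi)
  set E : List (Eqn (Fin N)) := (tagged w).map (fun t => toEqn f t.2) with hE
  set J : List (Fin N) := List.finRange N with hJ
  have hsat : ∀ (b : ℝ) (y : Fin N → ℝ), Sat b y E ↔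
      ∀ t ∈ tagged w, t.2.Holds (fun i => y (f i)) := by
    intro b y
    constructor
    · intro h t ht
      exact (toEqn_holds f b y t.2).1 (h _ (List.mem_map.2 ⟨t, ht, rfl⟩))
    · intro h e he
      obtain ⟨t, ht, rfl⟩ := List.mem_map.1 he
      exact (toEqn_holds f b y t.2).2 (h t ht)
  have hy : ∀ b, Sat b (fun i : Fin N => z i) E := by
    intro b
    rw [hsat]
    intro t ht
    refine (gate_congr (fun i hi => ?_)).1 (hz t ht)
    have := tagged_vars w t ht i hi
    show z i = z (i % N)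
    rw [Nat.mod_eq_of_lt this]
  obtain ⟨y, hy1, hy2⟩ := sys_upper E J (obj J (fun i : Fin N => z i))
    (fun b _ => ⟨_, hy b, le_rfl⟩)
    (fun b b' _ _ z' h => ⟨z', (hsat b z').2 ((hsat b' z').1 h), le_rfl⟩) 1 one_pos
  refine ⟨fun i => y (f i), (hsat 1 y).1 hy1, fun i hi => ?_⟩
  show |y (f i)| ≤ _
  have hlen : slen E J ≤ 2 ^ N := by
    have h1 : slen E J ≤ N + nG L * 9 := by
      unfold slen
      rw [hJ, List.length_finRange]
      refine Nat.add_le_add_left ?_ _
      refine (List.sum_le_card_nsmul _ 9 ?_).trans ?_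
      · intro x hx
        obtain ⟨e, he, rfl⟩ := List.mem_map.1 hx
        obtain ⟨t, ht, rfl⟩ := List.mem_map.1 he
        exact toEqn_size f t.2
      · rw [List.length_map, hE, List.length_map, smul_eq_mul]
        exact Nat.mul_le_mul_right _ (tagged_length w)
    have h2 : nG L ≤ N := by
      rw [hN]
      unfold nG nV
      nlinarith [Nat.zero_le L]
    have h3 := ten_le N (by omega)
    omega
  have hHB : HB (Fintype.card (Fin N)) (slen E J) ≤ 2 ^ 2 ^ (5 * N + 6) :=
    HB_le (Fintype.card_fin N).le hlen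
  have hHB' : (HB (Fintype.card (Fin N)) (slen E J) : ℝ) ≤ 2 ^ 2 ^ (5 * N + 6) := by
    exact_mod_cast hHB
  have hone : y (f i) ^ 2 ≤ obj J y := by
    unfold obj
    refine List.single_le_sum ?_ _ (List.mem_map.2 ⟨f i, List.mem_finRange _, rfl⟩)
    intro x hx
    obtain ⟨j, _, rfl⟩ := List.mem_map.1 hx
    exact sq_nonneg _
  have hge : (2 : ℝ) ≤ 2 ^ 2 ^ (5 * N + 6) := by
    have : (2 : ℝ) ^ 1 ≤ 2 ^ 2 ^ (5 * N + 6) :=
      pow_le_pow_right₀ (by norm_num) Nat.one_le_two_pow
    simpa using this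
  exact abs_aux hge (hone.trans (hy2.trans (add_le_add_left hHB' 1)))

end Pool.Agent.Helper92_Pack
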