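import Pool.Agent.Helper2_Pack.StmtsA

/-!
# L3: soundness of the gadgets
-/

namespace Pool.Agent.Helper92_Pack

open Pool.Agent.Helper2_Pack

theorem sq_sound {ε : ℝ} {z : ℕ → ℝ} (h0 : 0 < ε) (h1 : ε ≤ 1 / 4) (hz : ∀ i, |z i| ≤ 1)
    (X σ : ℕ) (h : ∀ c ∈ sqCons X σ, c.Holds ε z) : z (σ + 7) = -(ε * z X ^ 2) := by
  simp only [sqCons, List.forall_mem_cons, Con.Holds, List.map_cons, List.map_nil,
    List.sum_cons, List.sum_nil, add_zero, Int.cast_zero] at h
  obtain ⟨e1, e2, e3, e4, e5, e6, e7, e8, -⟩ := h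
  set x := z X with hx
  have hxb := abs_le.mp (hz X)
  rw [← hx] at hxb
  have p1 : 0 < 1 + ε * x := by nlinarith
  have p2 : 0 < 1 - ε * x := by nlinarith
  have a1 : z (σ + 1) = -x := by linarith
  have a2 : z σ * (1 + ε * x) = -x := by linarith
  have a3 : z (σ + 2) * (1 - ε * x) = x := by
    rw [a1] at e3
    linarith
  have a4 : 2 * z (σ + 4) = z σ + z (σ + 2) := by linarith
  have a5 : z (σ + 4) * ((1 + ε * x) * (1 - ε * x)) = ε * x ^ 2 := by
    have : (2 * z (σ + 4)) * ((1 + ε * x) * (1 - ε * x)) = 2 * (ε * x ^ 2) := by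
      rw [a4]
      calc (z σ + z (σ + 2)) * ((1 + ε * x) * (1 - ε * x))
          = (z σ * (1 + ε * x)) * (1 - ε * x) + (z (σ + 2) * (1 - ε * x)) * (1 + ε * x) := by ring
        _ = 2 * (ε * x ^ 2) := by rw [a2, a3]; ring
    linarith
  have p3 : 0 < (1 + ε * x) * (1 - ε * x) := mul_pos p1 p2
  -- `1 + ε u = 1 / ((1 + ε x) (1 - ε x))`
  have a6 : (1 + ε * z (σ + 4)) * ((1 + ε * x) * (1 - ε * x)) = 1 := by
    have : (1 + ε * z (σ + 4)) * ((1 + ε * x) * (1 - ε * x)) =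
        (1 + ε * x) * (1 - ε * x) + ε * (z (σ + 4) * ((1 + ε * x) * (1 - ε * x))) := by ring
    rw [this, a5]
    ring
  have a7 : z (σ + 7) * (1 + ε * z (σ + 4)) = -z (σ + 4) := by linarith
  calc z (σ + 7) = z (σ + 7) * ((1 + ε * z (σ + 4)) * ((1 + ε * x) * (1 - ε * x))) := by
        rw [a6, mul_one]
    _ = (z (σ + 7) * (1 + ε * z (σ + 4))) * ((1 + ε * x) * (1 - ε * x)) := by ring
    _ = -(z (σ + 4) * ((1 + ε * x) * (1 - ε * x))) := by rw [a7]; ring
    _ = -(ε * x ^ 2) := by rw [a5]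

theorem prod_sound {ε : ℝ} {z : ℕ → ℝ} (h0 : 0 < ε) (h1 : ε ≤ 1 / 4) (hz : ∀ i, |z i| ≤ 1)
    (a b π : ℕ) (h : ∀ c ∈ prodCons a b π, c.Holds ε z) : z (π + 26) = -(ε * (z a * z b)) := by
  have hs1 := sq_sound h0 h1 hz (π + 1) (π + 9) (fun c hc => h c (by
    simp only [prodCons, List.mem_append]; tauto))
  have hs2 := sq_sound h0 h1 hz (π + 6) (π + 17) (fun c hc => h c (by
    simp only [prodCons, List.mem_append]; tauto))
  have h' : ∀ c ∈ ([.sum [a, b, π] 0, .sum [π, π + 1, π + 2] 0, .sum [π + 1, π + 3] 0,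
      .sum [π + 3, π + 2] 0, .sum [b, π + 4] 0, .sum [a, π + 4, π + 5] 0,
      .sum [π + 5, π + 6, π + 7] 0, .sum [π + 6, π + 8] 0, .sum [π + 8, π + 7] 0] : List Con),
      c.Holds ε z := fun c hc => h c (by
    simp only [prodCons, List.mem_append]; tauto)
  have h'' : ∀ c ∈ ([.sum [π + 16, π + 25] 0, .sum [π + 24, π + 25, π + 26] 0] : List Con),
      c.Holds ε z := fun c hc => h c (by
    simp only [prodCons, List.mem_append]; tauto)
  simp only [List.forall_mem_cons, Con.Holds, List.map_cons, List.map_nil,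
    List.sum_cons, List.sum_nil, add_zero, Int.cast_zero] at h' h''
  obtain ⟨e1, e2, e3, e4, e5, e6, e7, e8, e9, -⟩ := h'
  obtain ⟨f1, f2, -⟩ := h''
  have b1 : z (π + 1) = (z a + z b) / 2 := by linarith
  have b2 : z (π + 6) = (z a - z b) / 2 := by linarith
  have q1 : z (π + 16) = -(ε * z (π + 1) ^ 2) := hs1
  have q2 : z (π + 24) = -(ε * z (π + 6) ^ 2) := hs2
  rw [b1] at q1
  rw [b2] at q2
  have : z (π + 26) = z (π + 16) - z (π + 24) := by linarith
  rw [this, q1, q2]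
  ring

theorem mul_sound {ε : ℝ} {z : ℕ → ℝ} (h0 : 0 < ε) (h1 : ε ≤ 1 / 4) (hz : ∀ i, |z i| ≤ 1)
    (r β i j k : ℕ) (h : ∀ c ∈ gateCons r β (.mul i j k), c.Holds ε z) :
    z r * z i = z j * z k := by
  have hs1 := prod_sound h0 h1 hz (β + 1) (β + 3) (β + 8) (fun c hc => h c (by
    simp only [gateCons, List.mem_append]; tauto))
  have hs2 := prod_sound h0 h1 hz (β + 5) (β + 7) (β + 35) (fun c hc => h c (by
    simp only [gateCons, List.mem_append]; tauto))
  have h' : ∀ c ∈ ([.sum [r, β] 0, .sum [β, β + 1] 0, .sum [i, β + 2] 0, .sum [β + 2, β + 3] 0,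
      .sum [j, β + 4] 0, .sum [β + 4, β + 5] 0, .sum [k, β + 6] 0, .sum [β + 6, β + 7] 0] :
      List Con),
      c.Holds ε z := fun c hc => h c (by
    simp only [gateCons, List.mem_append]; tauto)
  have h'' : ∀ c ∈ ([.sum [β + 34, β + 62] 0, .sum [β + 62, β + 61] 0] : List Con),
      c.Holds ε z := fun c hc => h c (by
    simp only [gateCons, List.mem_append]; tauto)
  simp only [List.forall_mem_cons, Con.Holds, List.map_cons, List.map_nil,
    List.sum_cons, List.sum_nil, add_zero, Int.cast_zero] at h' h''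
  obtain ⟨e1, e2, e3, e4, e5, e6, e7, e8, -⟩ := h'
  obtain ⟨f1, f2, -⟩ := h''
  have q1 : z (β + 34) = -(ε * (z (β + 1) * z (β + 3))) := hs1
  have q2 : z (β + 61) = -(ε * (z (β + 5) * z (β + 7))) := hs2
  have b1 : z (β + 1) = z r := by linarith
  have b3 : z (β + 3) = z i := by linarith
  have b5 : z (β + 5) = z j := by linarith
  have b7 : z (β + 7) = z k := by linarith
  rw [b1, b3] at q1
  rw [b5, b7] at q2
  have : ε * (z r * z i) = ε * (z j * z k) := by linarith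
  exact mul_left_cancel₀ h0.ne' this

theorem l3 : L3Stmt := fun _ _ h0 h1 hz =>
  ⟨fun X σ h => sq_sound h0 h1 hz X σ h, fun a b π h => prod_sound h0 h1 hz a b π h,
    fun r β i j k h => mul_sound h0 h1 hz r β i j k h⟩

end Pool.Agent.Helper92_Pack
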